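import Pool.Agent.H446R9.EV.Zim
import Pool.Agent.H446R9.EV.Lf

/-!
Groups in the semigroup varieties defined by balanced identities all of whose nil-semigroups are
locally finite.

By Sapir's theorem a variety `V` defined by identities in at most `n` letters has no infinite
finitely generated nil-semigroup iff it satisfies a nontrivial identity `Z_{n+1} = W`.  If the
defining identities are balanced, so is `Z_{n+1} = W`.  Here the groups of such varieties are
shown to be nilpotent: cutting the words at the last letter gives, modulo the centre, more laws
`Z_n = A`, in which the letters still occur as often on average as in `Z_n`, so that a letter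
missing in one of the words always appears at the end.
-/

universe u

namespace Pool.Agent.Results.MP_e0e7d6_al.BalancedZiminLaws

/-- The Zimin words `Z_n` in the letters `0, …, n - 1`: `Z_0` is empty and
`Z_{n+1} = Z_n n Z_n`. -/
def zimin : ℕ → List ℕ
  | 0 => []
  | n + 1 => zimin n ++ n :: zimin n

theorem zimin_eq (n : ℕ) : zimin n = H446.EV.Z n := by
  induction n with
  | zero => rfl
  | succ n ih => simp only [zimin, H446.EV.Z, ih]

/-- Let `W ≠ Z_{n+1}` be a word in which every letter occurs as often as in `Z_{n+1}`, and let
`G` be a group satisfying the identity `Z_{n+1} = W`.  Then `G` is nilpotent of class at most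
`n`; in particular, if `G` is periodic then it is locally finite. -/
theorem result (n : ℕ) (W : List ℕ) (hW : W ≠ zimin (n + 1))
    (hbal : ∀ i : ℕ, W.count i = (zimin (n + 1)).count i) (G : Type u) [Group G]
    (hlaw : ∀ v : ℕ → G, ((zimin (n + 1)).map v).prod = (W.map v).prod) :
    Subgroup.upperCentralSeries G n = ⊤ ∧
      ((∀ g : G, IsOfFinOrder g) → ∀ K : Subgroup G, K.FG → Finite K) := by
  obtain ⟨c, hc, htop⟩ := H446.EV.nilp_of_laws (n + 1) G [W]
    (by
      intro A hA v
      rw [List.mem_singleton.mp hA, ← zimin_eq]
      exact hlaw v)
    (by
      intro i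
      simp only [List.map_cons, List.map_nil, List.sum_cons, List.sum_nil, List.length_cons,
        List.length_nil]
      rw [hbal i, zimin_eq]; ring)
    ⟨W, List.mem_singleton.mpr rfl, by rw [← zimin_eq]; exact hW⟩
  have hcn : c = n := by omega
  subst hcn
  refine ⟨htop, fun hp => H446.EV.lf_of_ucs (c := c) (d := 1) hp le_rfl (by norm_num) ?_⟩
  intro g
  rw [htop]
  exact Subgroup.mem_top _

end Pool.Agent.Results.MP_e0e7d6_al.BalancedZiminLaws
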