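import Mathlib
import Pool.Agent.H32GR.Asm

/-!
# Semigroup varieties satisfying `x ^ 13 = x`: three generators decide
-/

set_option autoImplicit false

namespace Pool.Agent.Results.MP_e0e7d6_al.ThreeGenerated

/-- `S` satisfies the identities `u = v`, `(u, v) ∈ I` (words in the letters `0, 1, 2, …`) -/
def Sat (I : Set (FreeSemigroup ℕ × FreeSemigroup ℕ)) (S : Type) [Semigroup S] : Prop :=
  ∀ f : FreeSemigroup ℕ →ₙ* S, ∀ p ∈ I, f p.1 = f p.2

/-- `pw x k` is the power `x ^ (k + 1)` -/
def pw {S : Type} [Mul S] (x : S) : ℕ → S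
  | 0 => x
  | k + 1 => pw x k * x

theorem pw_eq {S : Type} [Mul S] (x : S) (k : ℕ) : pw x k = Pool.Agent.H32GR.pw x k := by
  induction k with
  | zero => rfl
  | succ k ih => rw [pw, Pool.Agent.H32GR.pw, ih]

/-- Let `I` be a set of semigroup identities which implies `x ^ 13 = x`. Then the variety defined
by `I` contains an infinite finitely generated (periodic) semigroup if and only if it contains an
infinite semigroup generated by three elements. -/
theorem result (I : Set (FreeSemigroup ℕ × FreeSemigroup ℕ))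
    (h13 : ∀ (S : Type) [Semigroup S], Sat I S → ∀ x : S, pw x 12 = x) :
    (∃ (S : Type) (_ : Semigroup S), Sat I S ∧ Infinite S ∧
      ∃ A : Finset S, Subsemigroup.closure (A : Set S) = ⊤) ↔
    (∃ (S : Type) (_ : Semigroup S), Sat I S ∧ Infinite S ∧
      ∃ s : Fin 3 → S, Subsemigroup.closure (Set.range s) = ⊤) := by
  classical
  constructor
  · rintro ⟨S, hS, hsat, hinf, A, hA⟩
    by_contra hcon
    have h3 : ∀ (T : Type) [Semigroup T], Pool.Agent.H32GR.Sat I T →
        (∃ s : Fin 3 → T, Subsemigroup.closure (Set.range s) = ⊤) → Finite T := by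
      intro T hT hTs hs
      by_contra hfin
      exact hcon ⟨T, hT, hTs, not_finite_iff_infinite.1 hfin, hs⟩
    have := Pool.Agent.H32GR.asm I (fun T _ hT x => by rw [← pw_eq]; exact h13 T hT x) h3 S hsat A hA
    exact not_finite_iff_infinite.2 hinf this
  · rintro ⟨S, hS, hsat, hinf, s, hs⟩
    exact ⟨S, hS, hsat, hinf, Finset.univ.image s, by simpa using hs⟩

end Pool.Agent.Results.MP_e0e7d6_al.ThreeGenerated
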